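import Mathlib
import Pool.Prelude.Def_H_3587d628

/-!
# Online learners, disjunctions, mistakes

Definitions used in the statement about the competitive ratio of online learning against the best
disjunction.
-/

set_option autoImplicit false

namespace Pool.Agent.OnlineDisj

/-- A (deterministic) online learner with memory states of type `σ`. In each trial it sees an
instance `x`, given as a list of bits, predicts `predict (s, x)` from its memory `s`, then sees the
label `y` and changes its memory to `update (s, x, y)`. -/
structure Learner (σ : Type) where
  /-- the memory before the first trial -/
  start : σ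
  /-- the prediction -/
  predict : σ × List Bool → Bool
  /-- the memory after the trial -/
  update : σ × List Bool × Bool → σ

/-- a labelled sequence over `{0,1}^n` -/
abbrev Seq (n : ℕ) : Type := List ((Fin n → Bool) × Bool)

/-- the memory after the trials of the sequence, starting from the memory `s` -/
def Learner.run {σ : Type} (L : Learner σ) {n : ℕ} : σ → Seq n → σ
  | s, [] => s
  | s, (x, y) :: S => L.run (L.update (s, List.ofFn x, y)) S

/-- the number of mistakes on the sequence, starting from the memory `s` -/
def Learner.mistakesFrom {σ : Type} (L : Learner σ) {n : ℕ} : σ → Seq n → ℕ
  | _, [] => 0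
  | s, (x, y) :: S => (if L.predict (s, List.ofFn x) = y then 0 else 1) +
      L.mistakesFrom (L.update (s, List.ofFn x, y)) S

/-- the number of mistakes of the learner on the sequence -/
def Learner.mistakes {σ : Type} (L : Learner σ) {n : ℕ} (S : Seq n) : ℕ :=
  L.mistakesFrom L.start S

/-- The learner runs in time polynomial in `n` per trial: prediction and update are computable in
polynomial time (Turing machines, Mathlib's `TM2ComputableInPolyTime`), and on instances from
`{0,1}^n` the memory always has size polynomial in `n`. -/
structure Learner.PolyTime {σ : Type} [N487b59b3 σ] (L : Learner σ) : Prop where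
  /-- the prediction is polynomial-time computable -/
  predict : N68a2faeb.IsPolyTime L.predict
  /-- the update is polynomial-time computable -/
  update : N68a2faeb.IsPolyTime L.update
  /-- the memory is polynomially bounded -/
  memory : ∃ q : Polynomial ℕ, ∀ (n : ℕ) (S : Seq n),
    (N487b59b3.bitEncode (L.run L.start S)).length ≤ q.eval n

/-- The disjunction of the literals in `h`: the literal `(i, true)` is `x_i`, the literal
`(i, false)` is the negation of `x_i`. -/
def disj {n : ℕ} (h : Finset (Fin n × Bool)) (x : Fin n → Bool) : Bool :=
  decide (∃ l ∈ h, x l.1 = l.2)

/-- the number of trials on which the disjunction `h` differs from the label -/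
def errors {n : ℕ} (h : Finset (Fin n × Bool)) (S : Seq n) : ℕ :=
  S.countP fun z => disj h z.1 != z.2

/-- the least number of errors of a disjunction on the sequence -/
noncomputable def mDisj {n : ℕ} (S : Seq n) : ℕ :=
  sInf (Set.range fun h : Finset (Fin n × Bool) => errors h S)

/-- the least number of relevant variables of a disjunction attaining `mDisj S` -/
noncomputable def rDisj {n : ℕ} (S : Seq n) : ℕ :=
  sInf {r | ∃ h : Finset (Fin n × Bool), errors h S = mDisj S ∧ (h.image Prod.fst).card = r}

end Pool.Agent.OnlineDisj
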