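import Pool.Agent.Lib_helper88.PolyTime.Arith
import Pool.Agent.Lib_helper88.OnlineDisj.Defs

/-!
# The learner

Memory: a number `k`, a countdown, and for every variable the cell of the positive literal and the
cell of the negative literal; a cell is a budget and a weight. All numbers are unary.
-/

set_option autoImplicit false

namespace Pool.Agent.OnlineDisj

open Pool.Agent.PT

/-- budget and weight of a literal -/
abbrev Cell : Type := U × U

/-- the cells of the two literals of a variable -/
abbrev Cells : Type := Cell × Cell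

/-- memory states -/
abbrev Mem : Type := U × U × List Cells

/-- one step of the search for the ceiling of the square root -/
def rtStep (m k : ℕ) : ℕ := if m ≤ k * k then k else k + 1

/-- the least `k` with `m ≤ k * k` -/
def rt (m : ℕ) : ℕ := (rtStep m)^[m] 0

/-- length of a phase -/
def phase (n : ℕ) : ℕ := 2 * n * (12 * rt n + 17)

/-- the initial memory for instances with the given length -/
def initMem (x : List Bool) : Mem :=
  (⟨rt x.length⟩, ⟨phase x.length⟩,
    x.map fun _ => ((⟨2 * x.length⟩, ⟨1⟩), (⟨2 * x.length⟩, ⟨1⟩)))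

/-- empty memory -/
def start : Mem := (⟨0⟩, ⟨0⟩, [])

/-- initialise the memory if it is empty -/
def ready (p : Mem × List Bool) : Mem := if p.1.2.2.isEmpty then initMem p.2 else p.1

/-- the cell of the satisfied literal -/
def sel (z : Bool × Cells) : Cell := if z.1 then z.2.1 else z.2.2

/-- total weight of the satisfied literals -/
def total (x : List Bool) (c : List Cells) : U :=
  (x.zip c).foldl (fun s z => ⟨s.val + (sel z).2.val⟩) ⟨0⟩

/-- number of the satisfied literals of nonzero weight -/
def count (x : List Bool) (c : List Cells) : U :=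
  (x.zip c).foldl (fun s z => if decide ((sel z).2.val = 0) then s else ⟨s.val + 1⟩) ⟨0⟩

/-- change the cells of the satisfied literals -/
def modify (f : Cell → Cell) (x : List Bool) (c : List Cells) : List Cells :=
  (x.zip c).map fun z => if z.1 then (f z.2.1, z.2.2) else (z.2.1, f z.2.2)

/-- double the weight -/
def dbl (c : Cell) : Cell := (c.1, ⟨c.2.val + c.2.val⟩)

/-- charge the budget; the weight becomes `0` when the budget is used up -/
def chg (c : Cell) : Cell := (⟨c.1.val - 1⟩, if decide (c.1.val ≤ 1) then ⟨0⟩ else c.2)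

/-- halve the weight, unless it is at most `1` -/
def hlv (c : Cell) : Cell := (c.1, if decide (c.2.val ≤ 1) then c.2 else ⟨c.2.val / 2⟩)

/-- the prediction -/
def predict (p : Mem × List Bool) : Bool :=
  decide ((ready p).1.val + (ready p).1.val ≤ (total p.2 (ready p).2.2).val)

/-- the cells after a mistake -/
def change (t : Mem) (x : List Bool) (y : Bool) : List Cells :=
  if y then modify dbl x t.2.2
  else if decide (t.1.val ≤ (count x t.2.2).val) then modify chg x t.2.2
  else modify hlv x t.2.2

/-- the update of the memory -/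
def update (p : Mem × List Bool × Bool) : Mem :=
  if predict (p.1, p.2.1) == p.2.2 then ready (p.1, p.2.1)
  else if decide ((ready (p.1, p.2.1)).2.1.val = 0) then start
  else ((ready (p.1, p.2.1)).1, ⟨(ready (p.1, p.2.1)).2.1.val - 1⟩,
    change (ready (p.1, p.2.1)) p.2.1 p.2.2)

/-- the learner -/
def learner : Learner Mem where
  start := start
  predict := predict
  update := update

/-! ### polynomial time -/

theorem rt_iter (m j k : ℕ) :
    (fun s : U => U.mk (rtStep m s.val))^[j] ⟨k⟩ = ⟨(rtStep m)^[j] k⟩ := by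
  induction j generalizing k with
  | zero => rfl
  | succ j ih => rw [Function.iterate_succ_apply, Function.iterate_succ_apply, ih]

theorem PT_rt {α : Type} [N487b59b3 α] {f : α → U} (hf : PT f) : PT (fun a => U.mk (rt (f a).val)) := by
  have hstep : PT (fun p : U × U => U.mk (rtStep p.1.val p.2.val)) := by
    refine (PT.ite (PT.ule PT.fst (PT.umul PT.snd PT.snd)) PT.snd PT.snd.usucc).congr fun p => ?_
    simp only [rtStep, decide_eq_true_eq]
    split_ifs <;> rfl
  refine (PT.iter hstep 1 ?_ hf (PT.const (U.mk 0)) hf).congr fun a => ?_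
  · intro e s
    rw [length_enc_U, length_enc_U]
    simp only [rtStep, Polynomial.eval_one]
    split_ifs <;> omega
  · exact rt_iter (f a).val (f a).val 0

theorem PT_phase {α : Type} [N487b59b3 α] {f : α → U} (hf : PT f) :
    PT (fun a => U.mk (phase (f a).val)) :=
  PT.umul (PT.umul (PT.const (U.mk 2)) hf)
    (PT.uadd (PT.umul (PT.const (U.mk 12)) (PT_rt hf)) (PT.const (U.mk 17)))

theorem PT_initMem {α : Type} [N487b59b3 α] {f : α → List Bool} (hf : PT f) :
    PT (fun a => initMem (f a)) := by
  have hn := PT.length hf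
  have hN : PT (fun a => U.mk (2 * (f a).length)) := PT.umul (PT.const (U.mk 2)) hn
  refine PT.pair (PT_rt hn) (PT.pair (PT_phase hn) ?_)
  refine PT.map (g := fun p : U × Bool => ((p.1, U.mk 1), (p.1, U.mk 1))) ?_ hN hf
  exact PT.pair (PT.pair PT.fst (PT.const _)) (PT.pair PT.fst (PT.const _))

theorem PT_ready {α : Type} [N487b59b3 α] {f : α → Mem × List Bool} (hf : PT f) :
    PT (fun a => ready (f a)) :=
  PT.ite (PT.isEmpty.comp hf.comp_fst.comp_snd.comp_snd) (PT_initMem hf.comp_snd) hf.comp_fst

theorem PT_sel {α : Type} [N487b59b3 α] {f : α → Bool × Cells} (hf : PT f) :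
    PT (fun a => sel (f a)) :=
  PT.ite hf.comp_fst hf.comp_snd.comp_fst hf.comp_snd.comp_snd

theorem PT_total {α : Type} [N487b59b3 α] {f : α → List Bool} {g : α → List Cells} (hf : PT f)
    (hg : PT g) : PT (fun a => total (f a) (g a)) := by
  refine PT.fold (g := fun p : Bool × U × (Bool × Cells) => U.mk (p.2.1.val + (sel p.2.2).2.val))
    (e := fun _ => true) (s := fun _ => U.mk 0) (l := fun a => (f a).zip (g a)) ?_
    Polynomial.X ?_ (PT.const true) (PT.const _) (PT.zip hf hg)
  · exact PT.uadd PT.snd.comp_fst (PT_sel PT.snd.comp_snd).comp_snd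
  · intro e s z
    obtain ⟨b, ⟨u1, u2⟩, ⟨u3, u4⟩⟩ := z
    rw [length_enc_U, length_enc_U]
    simp only [Polynomial.eval_X, length_enc_pair, length_enc_U, sel]
    split_ifs <;> simp only <;> omega

theorem PT_count {α : Type} [N487b59b3 α] {f : α → List Bool} {g : α → List Cells} (hf : PT f)
    (hg : PT g) : PT (fun a => count (f a) (g a)) := by
  refine PT.fold (g := fun p : Bool × U × (Bool × Cells) =>
      if decide ((sel p.2.2).2.val = 0) then p.2.1 else U.mk (p.2.1.val + 1))
    (e := fun _ => true) (s := fun _ => U.mk 0) (l := fun a => (f a).zip (g a)) ?_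
    1 ?_ (PT.const true) (PT.const _) (PT.zip hf hg)
  · exact PT.ite (PT_sel PT.snd.comp_snd).comp_snd.uzero PT.snd.comp_fst PT.snd.comp_fst.usucc
  · intro e s z
    simp only [Polynomial.eval_one]
    split_ifs
    · omega
    · rw [length_enc_U, length_enc_U]

theorem PT_modify {α : Type} [N487b59b3 α] {φ : Cell → Cell} (hφ : PT φ) {f : α → List Bool}
    {g : α → List Cells} (hf : PT f) (hg : PT g) : PT (fun a => modify φ (f a) (g a)) := by
  refine PT.map (g := fun p : Bool × (Bool × Cells) =>
      if p.2.1 then (φ p.2.2.1, p.2.2.2) else (p.2.2.1, φ p.2.2.2)) (e := fun _ => true)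
    (l := fun a => (f a).zip (g a)) ?_ (PT.const true) (PT.zip hf hg)
  exact PT.ite PT.snd.comp_fst
    (PT.pair (hφ.comp PT.snd.comp_snd.comp_fst) PT.snd.comp_snd.comp_snd)
    (PT.pair PT.snd.comp_snd.comp_fst (hφ.comp PT.snd.comp_snd.comp_snd))

theorem PT_dbl : PT dbl := PT.pair PT.fst (PT.uadd PT.snd PT.snd)

theorem PT_chg : PT chg :=
  PT.pair PT.fst.upred (PT.ite (PT.ule PT.fst (PT.const (U.mk 1))) (PT.const _) PT.snd)

theorem PT_hlv : PT hlv :=
  PT.pair PT.fst (PT.ite (PT.ule PT.snd (PT.const (U.mk 1))) PT.snd PT.snd.uhalf)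

theorem PT_predict : PT predict :=
  PT.ule (PT.uadd (PT_ready PT.id).comp_fst (PT_ready PT.id).comp_fst)
    (PT_total PT.snd (PT_ready PT.id).comp_snd.comp_snd)

theorem PT_update : PT update := by
  have hp : PT (fun p : Mem × List Bool × Bool => (p.1, p.2.1)) := PT.pair PT.fst PT.snd.comp_fst
  have hr := PT_ready hp
  have hx : PT (fun p : Mem × List Bool × Bool => p.2.1) := PT.snd.comp_fst
  have hc := hr.comp_snd.comp_snd
  refine PT.ite (PT.beq (PT_predict.comp hp) PT.snd.comp_snd) hr
    (PT.ite hr.comp_snd.comp_fst.uzero (PT.const _)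
      (PT.pair hr.comp_fst (PT.pair hr.comp_snd.comp_fst.upred ?_)))
  exact PT.ite PT.snd.comp_snd (PT_modify PT_dbl hx hc)
    (PT.ite (PT.ule hr.comp_fst (PT_count hx hc)) (PT_modify PT_chg hx hc)
      (PT_modify PT_hlv hx hc))

end Pool.Agent.OnlineDisj
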