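import Mathlib

/-!
# The combinatorial core: one phase of the algorithm

Literals over `n` variables are the elements of `Fin n × Bool`; every literal `l` has a budget `b l`
and a weight `w l`.
-/

set_option autoImplicit false

namespace Pool.Agent.OnlineDisj

open Finset

/-- the literal is satisfied by the instance -/
def sat {n : ℕ} (x : Fin n → Bool) (l : Fin n × Bool) : Prop := x l.1 = l.2

instance {n : ℕ} (x : Fin n → Bool) (l : Fin n × Bool) : Decidable (sat x l) :=
  inferInstanceAs (Decidable (x l.1 = l.2))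

/-- total weight of the satisfied literals -/
def tot {n : ℕ} (x : Fin n → Bool) (w : Fin n × Bool → ℕ) : ℕ :=
  ∑ l, if sat x l then w l else 0

/-- number of the satisfied literals of nonzero weight -/
def num {n : ℕ} (x : Fin n → Bool) (w : Fin n × Bool → ℕ) : ℕ :=
  ∑ l, if sat x l ∧ w l ≠ 0 then 1 else 0

/-- the invariant of a phase: `e` errors of `h` and `M` mistakes of the learner so far -/
def PInv (n k : ℕ) (h : Finset (Fin n × Bool)) (e M : ℕ) (b w : Fin n × Bool → ℕ) : Prop :=
  e < 2 * n → ∃ P L H : ℕ, M = P + L + H ∧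
    (∀ l ∈ h, 2 * n ≤ b l + e ∧ 1 ≤ w l) ∧
    k * H + ∑ l, b l ≤ (2 * n) * (2 * n) ∧
    k * L + 2 * ∑ l, w l ≤ 2 * (2 * n) + 4 * k * P ∧
    P ≤ (1 + k) * e + ∑ l ∈ h, Nat.log 2 (w l) ∧
    (∀ l, w l ≤ 4 * k) ∧
    ∀ l, w l ≠ 0 → 1 ≤ b l

theorem card_lit (n : ℕ) : (univ : Finset (Fin n × Bool)).card = 2 * n := by
  simp [mul_comm]

theorem PInv.init (n k : ℕ) (hk : 1 ≤ k) (h : Finset (Fin n × Bool)) :
    PInv n k h 0 0 (fun _ => 2 * n) (fun _ => 1) := by
  intro he
  refine ⟨0, 0, 0, rfl, ?_, ?_, ?_, ?_, ?_, ?_⟩ <;> beta_reduce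
  · intro l _
    exact ⟨by omega, le_rfl⟩
  · rw [sum_const, card_lit, smul_eq_mul]
    omega
  · rw [sum_const, card_lit, smul_eq_mul]
    omega
  · omega
  · intro l
    omega
  · intro l _
    omega

theorem PInv.mono {n k : ℕ} {h : Finset (Fin n × Bool)} {e e' M : ℕ} {b w : Fin n × Bool → ℕ}
    (hI : PInv n k h e M b w) (he : e ≤ e') : PInv n k h e' M b w := by
  intro he'
  obtain ⟨P, L, H, h0, h1, h2, h3, h4, h5, h6⟩ := hI (lt_of_le_of_lt he he')
  refine ⟨P, L, H, h0, fun l hl => ?_, h2, h3, ?_, h5, h6⟩
  · have := h1 l hl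
    omega
  · have := Nat.mul_le_mul_left (1 + k) he
    omega

theorem PInv.bound {n k : ℕ} (hk : 1 ≤ k) (hn : n ≤ k * k) {h : Finset (Fin n × Bool)} {e M : ℕ}
    {b w : Fin n × Bool → ℕ} (hI : PInv n k h e M b w) (he : e < 2 * n) :
    M ≤ 2 * n * (12 * k + 17) := by
  obtain ⟨P, L, H, h0, h1, h2, h3, h4, h5, h6⟩ := hI he
  have hlog : ∀ l, Nat.log 2 (w l) ≤ k + 2 := by
    intro l
    have h7 : w l < 2 ^ (k + 2 + 1) := by
      have : k < 2 ^ k := Nat.lt_two_pow_self
      calc w l ≤ 4 * k := h5 l
        _ < 4 * 2 ^ k := by omega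
        _ = 2 ^ (k + 2) := by ring
        _ ≤ 2 ^ (k + 2 + 1) := Nat.pow_le_pow_right (by norm_num) (by omega)
    have := Nat.log_lt_of_lt_pow' (by omega) h7
    omega
  have hsum : ∑ l ∈ h, Nat.log 2 (w l) ≤ 2 * n * (k + 2) := by
    calc ∑ l ∈ h, Nat.log 2 (w l) ≤ ∑ l ∈ h, (k + 2) := sum_le_sum fun l _ => hlog l
      _ = h.card * (k + 2) := by rw [sum_const, smul_eq_mul]
      _ ≤ 2 * n * (k + 2) := by
        apply Nat.mul_le_mul_right
        rw [← card_lit n]
        exact card_le_univ h
  have hP : P ≤ 2 * n * (2 * k + 3) := by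
    have h7 : (1 + k) * e ≤ (1 + k) * (2 * n) := Nat.mul_le_mul_left _ (by omega)
    have h8 : (1 + k) * (2 * n) + 2 * n * (k + 2) = 2 * n * (2 * k + 3) := by ring
    omega
  have hL : L ≤ 2 * (2 * n) + 4 * P := by
    have h7 : k * L ≤ k * (2 * (2 * n) + 4 * P) := by
      have h8 : 2 * (2 * n) ≤ k * (2 * (2 * n)) := Nat.le_mul_of_pos_left _ (by omega)
      have h9 : k * (2 * (2 * n) + 4 * P) = k * (2 * (2 * n)) + 4 * k * P := by ring
      omega
    exact Nat.le_of_mul_le_mul_left h7 (by omega)
  have hH : H ≤ 2 * k * (2 * n) := by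
    have h7 : k * H ≤ k * (2 * k * (2 * n)) := by
      have h8 : (2 * n) * (2 * n) ≤ k * (2 * k * (2 * n)) := by
        calc (2 * n) * (2 * n) = (2 * (2 * n)) * n := by ring
          _ ≤ (2 * (2 * n)) * (k * k) := Nat.mul_le_mul_left _ hn
          _ = k * (2 * k * (2 * n)) := by ring
      omega
    exact Nat.le_of_mul_le_mul_left h7 (by omega)
  calc M = P + L + H := h0
    _ ≤ 5 * (2 * n * (2 * k + 3)) + 2 * (2 * n) + 2 * k * (2 * n) := by omega
    _ = 2 * n * (12 * k + 17) := by ring

/-- promotion: the label is `1` and the total weight is small -/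
theorem PInv.promote {n k : ℕ} {h : Finset (Fin n × Bool)} {e M : ℕ}
    {b w : Fin n × Bool → ℕ} (hI : PInv n k h e M b w) (x : Fin n → Bool)
    (hT : tot x w < 2 * k) :
    PInv n k h (e + if ∃ l ∈ h, sat x l then 0 else 1) (M + 1) b
      (fun l => if sat x l then w l + w l else w l) := by
  intro he
  obtain ⟨P, L, H, h0, h1, h2, h3, h4, h5, h6⟩ := hI (by omega)
  refine ⟨P + 1, L, H, by omega, ?_, h2, ?_, ?_, ?_, ?_⟩ <;> beta_reduce
  · intro l hl
    have := h1 l hl
    refine ⟨by omega, ?_⟩
    split_ifs <;> omega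
  · have h7 : ∑ l, (if sat x l then w l + w l else w l) = ∑ l, w l + tot x w := by
      unfold tot
      rw [← sum_add_distrib]
      apply sum_congr rfl
      intro l _
      split_ifs <;> omega
    rw [h7]
    have : 4 * k * (P + 1) = 4 * k * P + 4 * k := by ring
    omega
  · by_cases hs : ∃ l ∈ h, sat x l
    · have h9 : (1 + k) * (e + if ∃ l ∈ h, sat x l then 0 else 1) = (1 + k) * e := by
        rw [if_pos hs, Nat.add_zero]
      rw [h9]
      obtain ⟨l0, hl0, hs0⟩ := hs
      have h7 : ∑ l ∈ h, Nat.log 2 (w l) + 1 ≤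
          ∑ l ∈ h, Nat.log 2 (if sat x l then w l + w l else w l) := by
        have : ∑ l ∈ h, Nat.log 2 (w l) <
            ∑ l ∈ h, Nat.log 2 (if sat x l then w l + w l else w l) := by
          apply sum_lt_sum
          · intro l _
            split_ifs
            · exact Nat.log_mono_right (by omega)
            · exact le_rfl
          · refine ⟨l0, hl0, ?_⟩
            rw [if_pos hs0, ← mul_two, Nat.log_mul_base (by norm_num)
              (by have := (h1 l0 hl0).2; omega)]
            exact Nat.lt_succ_self _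
        exact this
      omega
    · rw [if_neg hs]
      have h7 : ∑ l ∈ h, Nat.log 2 (w l) ≤
          ∑ l ∈ h, Nat.log 2 (if sat x l then w l + w l else w l) := by
        apply sum_le_sum
        intro l _
        split_ifs
        · exact Nat.log_mono_right (by omega)
        · exact le_rfl
      have h8 : (1 + k) * (e + 1) = (1 + k) * e + 1 + k := by ring
      omega
  · intro l
    split_ifs with hs
    · have h7 : w l ≤ tot x w := by
        unfold tot
        have := single_le_sum (f := fun l => if sat x l then w l else 0) (s := univ)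
          (fun _ _ => Nat.zero_le _) (mem_univ l)
        simpa [hs] using this
      omega
    · exact h5 l
  · intro l hl
    apply h6 l
    intro h0
    apply hl
    rw [h0]
    simp

/-- heavy mistake on a negative example: charge the budgets -/
theorem PInv.charge {n k : ℕ} {h : Finset (Fin n × Bool)} {e M : ℕ}
    {b w : Fin n × Bool → ℕ} (hI : PInv n k h e M b w) (x : Fin n → Bool)
    (hA : k ≤ num x w) :
    PInv n k h (e + if ∃ l ∈ h, sat x l then 1 else 0) (M + 1)
      (fun l => if sat x l then b l - 1 else b l)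
      (fun l => if sat x l then (if b l ≤ 1 then 0 else w l) else w l) := by
  intro he
  obtain ⟨P, L, H, h0, h1, h2, h3, h4, h5, h6⟩ := hI (by omega)
  have hrel : ∀ l ∈ h, (if sat x l then (if b l ≤ 1 then 0 else w l) else w l) = w l := by
    intro l hl
    split_ifs with hs hb
    · rw [if_pos ⟨l, hl, hs⟩] at he
      have := h1 l hl
      omega
    · rfl
    · rfl
  refine ⟨P, L, H + 1, by omega, ?_, ?_, ?_, ?_, ?_, ?_⟩ <;> beta_reduce
  · intro l hl
    refine ⟨?_, ?_⟩
    · have := h1 l hl
      by_cases hs : sat x l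
      · rw [if_pos hs, if_pos ⟨l, hl, hs⟩]
        omega
      · rw [if_neg hs]
        omega
    · rw [hrel l hl]
      exact (h1 l hl).2
  · have h7 : ∑ l, (if sat x l then b l - 1 else b l) + num x w ≤ ∑ l, b l := by
      unfold num
      rw [← sum_add_distrib]
      apply sum_le_sum
      intro l _
      have := h6 l
      split_ifs with hs h2 h3
      · have := this h2.2
        omega
      · omega
      · exact absurd h3.1 hs
      · omega
    have h8 : k * (H + 1) = k * H + k := by ring
    omega
  · have h7 : ∑ l, (if sat x l then (if b l ≤ 1 then 0 else w l) else w l) ≤ ∑ l, w l := by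
      apply sum_le_sum
      intro l _
      split_ifs <;> omega
    omega
  · rw [sum_congr rfl fun l hl => by rw [hrel l hl]]
    have h7 : (1 + k) * e ≤ (1 + k) * (e + if ∃ l ∈ h, sat x l then 1 else 0) :=
      Nat.mul_le_mul_left _ (by omega)
    omega
  · intro l
    have := h5 l
    split_ifs <;> omega
  · intro l hl
    have := h6 l
    split_ifs at hl ⊢ with hs hb
    · omega
    · omega
    · exact this hl

/-- light mistake on a negative example: halve the weights -/
theorem PInv.demote {n k : ℕ} {h : Finset (Fin n × Bool)} {e M : ℕ}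
    {b w : Fin n × Bool → ℕ} (hI : PInv n k h e M b w) (x : Fin n → Bool)
    (hT : 2 * k ≤ tot x w) (hA : num x w < k) :
    PInv n k h (e + if ∃ l ∈ h, sat x l then 1 else 0) (M + 1) b
      (fun l => if sat x l then (if w l ≤ 1 then w l else w l / 2) else w l) := by
  intro he
  obtain ⟨P, L, H, h0, h1, h2, h3, h4, h5, h6⟩ := hI (by omega)
  refine ⟨P, L + 1, H, by omega, ?_, h2, ?_, ?_, ?_, ?_⟩ <;> beta_reduce
  · intro l hl
    have := h1 l hl
    refine ⟨by omega, ?_⟩
    split_ifs <;> omega
  · have h7 : 2 * ∑ l, (if sat x l then (if w l ≤ 1 then w l else w l / 2) else w l) + tot x w ≤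
        2 * ∑ l, w l + num x w := by
      unfold num tot
      rw [mul_sum, mul_sum, ← sum_add_distrib, ← sum_add_distrib]
      apply sum_le_sum
      intro l _
      by_cases hs : sat x l
      · simp only [hs, if_true, true_and]
        split_ifs <;> omega
      · simp only [hs, if_false, false_and]
        omega
    have h8 : k * (L + 1) = k * L + k := by ring
    omega
  · have h7 : ∑ l ∈ h, Nat.log 2 (w l) ≤
        ∑ l ∈ h, Nat.log 2 (if sat x l then (if w l ≤ 1 then w l else w l / 2) else w l) +
        if ∃ l ∈ h, sat x l then num x w else 0 := by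
      by_cases hs : ∃ l ∈ h, sat x l
      · rw [if_pos hs]
        calc ∑ l ∈ h, Nat.log 2 (w l) ≤
            ∑ l ∈ h, (Nat.log 2 (if sat x l then (if w l ≤ 1 then w l else w l / 2) else w l) +
              if sat x l ∧ w l ≠ 0 then 1 else 0) := by
              apply sum_le_sum
              intro l _
              split_ifs with ha hb hc hd
              · omega
              · omega
              · rw [Nat.log_div_base]
                omega
              · exact absurd ⟨ha, by omega⟩ hd
              · omega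
              · omega
          _ = ∑ l ∈ h, Nat.log 2 (if sat x l then (if w l ≤ 1 then w l else w l / 2) else w l) +
              ∑ l ∈ h, (if sat x l ∧ w l ≠ 0 then 1 else 0) := sum_add_distrib
          _ ≤ _ := by
              apply Nat.add_le_add_left
              exact sum_le_sum_of_subset_of_nonneg (subset_univ h) fun _ _ _ => Nat.zero_le _
      · rw [if_neg hs, Nat.add_zero]
        apply le_of_eq
        apply sum_congr rfl
        intro l hl
        rw [if_neg fun h7 => hs ⟨l, hl, h7⟩]
    by_cases hs : ∃ l ∈ h, sat x l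
    · rw [if_pos hs] at h7 ⊢
      have h8 : (1 + k) * (e + 1) = (1 + k) * e + 1 + k := by ring
      omega
    · rw [if_neg hs] at h7 ⊢
      rw [Nat.add_zero] at h7 ⊢
      omega
  · intro l
    have := h5 l
    split_ifs <;> omega
  · intro l hl
    apply h6 l
    intro h0
    apply hl
    rw [h0]
    simp

end Pool.Agent.OnlineDisj
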