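import Pool.Agent.Lib_helper88.OnlineDisj.Algo
import Pool.Agent.Lib_helper88.OnlineDisj.Phase

/-!
# Correctness of the learner: mistake bound and size of the memory
-/

set_option autoImplicit false

namespace Pool.Agent.OnlineDisj

open Pool.Agent.PT Finset

/-! ### the ceiling of the square root -/

theorem rt_inv (m j : ℕ) :
    (m ≤ (rtStep m)^[j] 0 * (rtStep m)^[j] 0 ∨ (rtStep m)^[j] 0 = j) ∧
    (rtStep m)^[j] 0 ≤ j ∧
    ((rtStep m)^[j] 0 = 0 ∨ ((rtStep m)^[j] 0 - 1) * ((rtStep m)^[j] 0 - 1) < m) := by
  induction j with
  | zero => simp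
  | succ j ih =>
    rw [Function.iterate_succ_apply']
    generalize (rtStep m)^[j] 0 = a at ih
    obtain ⟨h1, h2, h3⟩ := ih
    unfold rtStep
    split_ifs with h
    · exact ⟨Or.inl h, by omega, h3⟩
    · refine ⟨Or.inr ?_, by omega, Or.inr ?_⟩
      · rcases h1 with h1 | h1
        · exact absurd h1 h
        · omega
      · rw [Nat.add_sub_cancel]
        omega

theorem le_rt_sq (m : ℕ) : m ≤ rt m * rt m := by
  rcases (rt_inv m m).1 with h | h
  · exact h
  · show m ≤ (rtStep m)^[m] 0 * (rtStep m)^[m] 0
    rw [h]
    exact Nat.le_mul_self m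

theorem rt_le (m : ℕ) : rt m ≤ m := (rt_inv m m).2.1

theorem rt_pred_sq (m : ℕ) (hm : 1 ≤ m) : (rt m - 1) * (rt m - 1) < m := by
  rcases (rt_inv m m).2.2 with h | h
  · show ((rtStep m)^[m] 0 - 1) * ((rtStep m)^[m] 0 - 1) < m
    rw [h]
    omega
  · exact h

theorem one_le_rt (m : ℕ) (hm : 1 ≤ m) : 1 ≤ rt m := by
  by_contra h
  have h1 : rt m = 0 := by omega
  have h2 := le_rt_sq m
  rw [h1] at h2
  omega

/-! ### the memory describes budgets and weights -/

/-- the list of cells with the given budgets and weights -/
def cellsOf {n : ℕ} (b w : Fin n × Bool → ℕ) : List Cells :=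
  List.ofFn fun i => ((⟨b (i, true)⟩, ⟨w (i, true)⟩), (⟨b (i, false)⟩, ⟨w (i, false)⟩))

theorem zip_ofFn {α β : Type} {n : ℕ} (f : Fin n → α) (g : Fin n → β) :
    (List.ofFn f).zip (List.ofFn g) = List.ofFn fun i => (f i, g i) := by
  apply List.ext_getElem
  · simp
  · intro i h1 h2
    simp

theorem foldl_sum {α : Type} (F : α → ℕ) (l : List α) (m : ℕ) :
    l.foldl (fun (s : U) a => U.mk (s.val + F a)) ⟨m⟩ = ⟨m + (l.map F).sum⟩ := by
  induction l generalizing m with
  | nil => rfl
  | cons a l ih =>
    rw [List.foldl_cons, ih, List.map_cons, List.sum_cons]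
    congr 1
    dsimp only
    omega

theorem sum_sat {n : ℕ} (x : Fin n → Bool) (F : Fin n × Bool → ℕ) :
    ∑ l, (if sat x l then F l else 0) = ∑ i, F (i, x i) := by
  rw [Fintype.sum_prod_type]
  apply sum_congr rfl
  intro i _
  rw [Fintype.sum_bool]
  cases h : x i
  · rw [if_neg (by simp [sat, h]), if_pos (by simp [sat, h]), Nat.zero_add]
  · rw [if_pos (by simp [sat, h]), if_neg (by simp [sat, h]), Nat.add_zero]

theorem sel_cell {n : ℕ} (x : Fin n → Bool) (b w : Fin n × Bool → ℕ) (i : Fin n) :
    sel (x i, ((⟨b (i, true)⟩, ⟨w (i, true)⟩), (⟨b (i, false)⟩, ⟨w (i, false)⟩))) =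
      (⟨b (i, x i)⟩, ⟨w (i, x i)⟩) := by
  unfold sel
  cases x i <;> rfl

theorem total_eq {n : ℕ} (x : Fin n → Bool) (b w : Fin n × Bool → ℕ) :
    total (List.ofFn x) (cellsOf b w) = ⟨tot x w⟩ := by
  unfold total cellsOf tot
  rw [zip_ofFn, sum_sat]
  refine (foldl_sum (fun z => (sel z).2.val) _ 0).trans ?_
  rw [List.map_ofFn, List.sum_ofFn, Nat.zero_add]
  congr 1
  apply sum_congr rfl
  intro i _
  simp only [Function.comp]
  rw [sel_cell]

theorem count_eq {n : ℕ} (x : Fin n → Bool) (b w : Fin n × Bool → ℕ) :
    count (List.ofFn x) (cellsOf b w) = ⟨num x w⟩ := by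
  have h0 : num x w = ∑ l, (if sat x l then (if w l ≠ 0 then 1 else 0) else 0) := by
    unfold num
    apply sum_congr rfl
    intro l _
    rw [ite_and]
  rw [h0, sum_sat x fun l => if w l ≠ 0 then 1 else 0]
  unfold count cellsOf
  rw [zip_ofFn]
  have h1 : (fun (s : U) (z : Bool × Cells) =>
      if decide ((sel z).2.val = 0) = true then s else U.mk (s.val + 1)) =
      fun s z => U.mk (s.val + if (sel z).2.val ≠ 0 then 1 else 0) := by
    funext s z
    by_cases h : (sel z).2.val = 0
    · simp [h]
    · simp [h]
  rw [h1]
  refine (foldl_sum (fun z => if (sel z).2.val ≠ 0 then 1 else 0) _ 0).trans ?_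
  rw [List.map_ofFn, List.sum_ofFn, Nat.zero_add]
  congr 1
  apply sum_congr rfl
  intro i _
  simp only [Function.comp]
  rw [sel_cell]

theorem modify_eq {n : ℕ} (φ : Cell → Cell) (x : Fin n → Bool) (b w b' w' : Fin n × Bool → ℕ)
    (h : ∀ l, (U.mk (b' l), U.mk (w' l)) =
      if sat x l then φ (⟨b l⟩, ⟨w l⟩) else (U.mk (b l), U.mk (w l))) :
    modify φ (List.ofFn x) (cellsOf b w) = cellsOf b' w' := by
  unfold modify cellsOf
  rw [zip_ofFn, List.map_ofFn]
  congr 1
  funext i
  simp only [Function.comp]
  have h1 := h (i, true)
  have h2 := h (i, false)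
  cases hx : x i
  · have s1 : ¬ sat x (i, true) := by simp [sat, hx]
    have s2 : sat x (i, false) := hx
    rw [if_neg s1] at h1
    rw [if_pos s2] at h2
    rw [h1, h2]
    rfl
  · have s1 : sat x (i, true) := hx
    have s2 : ¬ sat x (i, false) := by simp [sat, hx]
    rw [if_pos s1] at h1
    rw [if_neg s2] at h2
    rw [h1, h2]
    rfl

/-- the memory with the given countdown, budgets and weights -/
def memOf {n : ℕ} (cnt : ℕ) (b w : Fin n × Bool → ℕ) : Mem := (⟨rt n⟩, ⟨cnt⟩, cellsOf b w)

theorem ready_start {n : ℕ} (x : Fin n → Bool) :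
    ready (start, List.ofFn x) = memOf (n := n) (phase n) (fun _ => 2 * n) (fun _ => 1) := by
  unfold ready
  rw [if_pos (by rfl)]
  unfold initMem memOf cellsOf
  simp only [List.length_ofFn, List.map_ofFn]
  rfl

theorem ready_memOf {n : ℕ} (hn : 1 ≤ n) (cnt : ℕ) (b w : Fin n × Bool → ℕ) (x : List Bool) :
    ready (memOf cnt b w, x) = memOf cnt b w := by
  unfold ready
  rw [if_neg]
  simp only [memOf, cellsOf, List.isEmpty_iff, List.ofFn_eq_nil_iff]
  omega

theorem change_eq {n : ℕ} (cnt : ℕ) (b w : Fin n × Bool → ℕ) (x : Fin n → Bool) (y : Bool) :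
    change (memOf cnt b w) (List.ofFn x) y =
      if y then cellsOf b (fun l => if sat x l then w l + w l else w l)
      else if rt n ≤ num x w then
        cellsOf (fun l => if sat x l then b l - 1 else b l)
          (fun l => if sat x l then (if b l ≤ 1 then 0 else w l) else w l)
      else cellsOf b (fun l => if sat x l then (if w l ≤ 1 then w l else w l / 2) else w l) := by
  have hiff : decide ((memOf cnt b w).1.val ≤
      (count (List.ofFn x) (memOf cnt b w).2.2).val) = decide (rt n ≤ num x w) := by
    rw [decide_eq_decide]
    show rt n ≤ (count (List.ofFn x) (cellsOf b w)).val ↔ _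
    rw [count_eq]
  unfold change
  rw [hiff]
  cases y
  · simp only [Bool.false_eq_true, if_false, decide_eq_true_eq]
    split_ifs with h
    · apply modify_eq
      intro l
      by_cases hs : sat x l
      · simp only [hs, if_true, chg]
        by_cases hb : b l ≤ 1
        · simp [hb]
        · simp [hb]
      · simp only [hs, if_false]
    · apply modify_eq
      intro l
      by_cases hs : sat x l
      · simp only [hs, if_true, hlv]
        by_cases hb : w l ≤ 1
        · simp [hb]
        · simp [hb]
      · simp only [hs, if_false]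
  · simp only [if_true]
    apply modify_eq
    intro l
    by_cases hs : sat x l
    · simp only [hs, if_true, dbl]
    · simp only [hs, if_false]

theorem predict_of_ready {s : Mem} {n : ℕ} {cnt : ℕ} {b w : Fin n × Bool → ℕ} {x : Fin n → Bool}
    (h : ready (s, List.ofFn x) = memOf cnt b w) :
    predict (s, List.ofFn x) = decide (2 * rt n ≤ tot x w) := by
  unfold predict
  rw [decide_eq_decide, h]
  show rt n + rt n ≤ (total (List.ofFn x) (cellsOf b w)).val ↔ _
  rw [total_eq, ← two_mul]

theorem update_of_ready {s : Mem} {n : ℕ} {cnt : ℕ} {b w : Fin n × Bool → ℕ} {x : Fin n → Bool}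
    (h : ready (s, List.ofFn x) = memOf cnt b w) (y : Bool) :
    update (s, List.ofFn x, y) =
      if decide (2 * rt n ≤ tot x w) = y then memOf cnt b w
      else if cnt = 0 then start
      else if y then memOf (cnt - 1) b (fun l => if sat x l then w l + w l else w l)
      else if rt n ≤ num x w then
        memOf (cnt - 1) (fun l => if sat x l then b l - 1 else b l)
          (fun l => if sat x l then (if b l ≤ 1 then 0 else w l) else w l)
      else memOf (cnt - 1) b
        (fun l => if sat x l then (if w l ≤ 1 then w l else w l / 2) else w l) := by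
  unfold update
  simp only [h]
  rw [predict_of_ready h, change_eq]
  simp only [beq_iff_eq, memOf]
  by_cases hp : decide (2 * rt n ≤ tot x w) = y
  · rw [if_pos hp, if_pos hp]
  · rw [if_neg hp, if_neg hp]
    by_cases h0 : cnt = 0
    · rw [if_pos h0]
      exact if_pos (decide_eq_true h0)
    · rw [if_neg h0]
      refine (if_neg (fun h1 => h0 (of_decide_eq_true h1))).trans ?_
      cases y
      · simp only [Bool.false_eq_true, if_false]
        by_cases h2 : rt n ≤ num x w
        · rw [if_pos h2, if_pos h2]
        · rw [if_neg h2, if_neg h2]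
      · simp only [if_true]

/-! ### the mistake bound -/

theorem errors_cons {n : ℕ} (h : Finset (Fin n × Bool)) (x : Fin n → Bool) (y : Bool) (S : Seq n) :
    errors h ((x, y) :: S) = errors h S + if disj h x = y then 0 else 1 := by
  unfold errors
  rw [List.countP_cons]
  congr 1
  by_cases hd : disj h x = y
  · simp [hd]
  · simp [hd]

theorem disj_eq_true {n : ℕ} (h : Finset (Fin n × Bool)) (x : Fin n → Bool) :
    disj h x = true ↔ ∃ l ∈ h, sat x l := by
  unfold disj sat
  rw [decide_eq_true_eq]

theorem mistakes_bound {n : ℕ} (hn : 1 ≤ n) (h : Finset (Fin n × Bool)) (S : Seq n) :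
    ∀ (s : Mem) (e M cnt : ℕ) (b w : Fin n × Bool → ℕ),
      (∀ x : Fin n → Bool, ready (s, List.ofFn x) = memOf cnt b w) →
      PInv n (rt n) h e M b w → M + cnt = phase n →
      2 * n * learner.mistakesFrom s S ≤ 2 * n * cnt + (phase n + 1) * (errors h S + e) := by
  induction S with
  | nil =>
    intro s e M cnt b w _ _ _
    simp [Learner.mistakesFrom]
  | cons z S ih =>
    obtain ⟨x, y⟩ := z
    intro s e M cnt b w hs hI hM
    have hk := one_le_rt n hn
    have hsq := le_rt_sq n
    have hpr := predict_of_ready (hs x)
    have hup := update_of_ready (hs x) y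
    have hstep : learner.mistakesFrom s ((x, y) :: S) =
        (if decide (2 * rt n ≤ tot x w) = y then 0 else 1) +
          learner.mistakesFrom (update (s, List.ofFn x, y)) S := by
      rw [← hpr]
      rfl
    rw [hstep, errors_cons]
    by_cases hc : decide (2 * rt n ≤ tot x w) = y
    · -- no mistake
      rw [if_pos hc] at hup ⊢
      rw [hup, Nat.zero_add]
      have := ih (memOf cnt b w) (e + if disj h x = y then 0 else 1) M cnt b w
        (fun x' => ready_memOf hn cnt b w _) (hI.mono (by omega)) hM
      have h1 : errors h S + (e + if disj h x = y then 0 else 1) =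
        errors h S + (if disj h x = y then 0 else 1) + e := by omega
      rwa [h1] at this
    · -- a mistake
      rw [if_neg hc] at hup ⊢
      set err := (if disj h x = y then 0 else 1) with herr
      -- the new budgets and weights
      obtain ⟨b', w', hI', hup'⟩ : ∃ b' w', PInv n (rt n) h (e + err) (M + 1) b' w' ∧
          update (s, List.ofFn x, y) = if cnt = 0 then start else memOf (cnt - 1) b' w' := by
        cases hy : y
        · have hT : 2 * rt n ≤ tot x w := by
            by_contra h1
            apply hc
            rw [hy]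
            simpa using h1
          have he : err = if ∃ l ∈ h, sat x l then 1 else 0 := by
            rw [herr, hy]
            by_cases h1 : ∃ l ∈ h, sat x l
            · rw [if_pos h1, if_neg]
              rw [(disj_eq_true h x).2 h1]
              simp
            · rw [if_neg h1, if_pos]
              rw [← disj_eq_true] at h1
              simpa using h1
          by_cases hA : rt n ≤ num x w
          · refine ⟨fun l => if sat x l then b l - 1 else b l,
              fun l => if sat x l then (if b l ≤ 1 then 0 else w l) else w l, ?_, ?_⟩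
            · rw [he]
              exact hI.charge x hA
            · rw [← hy, hup, hy]
              simp only [Bool.false_eq_true, if_false, if_pos hA]
          · refine ⟨b, fun l => if sat x l then (if w l ≤ 1 then w l else w l / 2) else w l,
              ?_, ?_⟩
            · rw [he]
              exact hI.demote x hT (by omega)
            · rw [← hy, hup, hy]
              simp only [Bool.false_eq_true, if_false, if_neg hA]
        · have hT : tot x w < 2 * rt n := by
            by_contra h1
            apply hc
            rw [hy]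
            simpa using h1
          have he : err = if ∃ l ∈ h, sat x l then 0 else 1 := by
            rw [herr, hy]
            by_cases h1 : ∃ l ∈ h, sat x l
            · rw [if_pos h1, if_pos]
              exact (disj_eq_true h x).2 h1
            · rw [if_neg h1, if_neg]
              rwa [← disj_eq_true] at h1
          refine ⟨b, fun l => if sat x l then w l + w l else w l, ?_, ?_⟩
          · rw [he]
            exact hI.promote x hT
          · rw [← hy, hup, hy]
            simp only [if_true]
      rw [hup']
      by_cases h0 : cnt = 0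
      · -- restart
        rw [if_pos h0]
        have he' : 2 * n ≤ e + err := by
          by_contra h1
          have := hI'.bound hk hsq (by omega)
          unfold phase at hM
          omega
        have := ih start 0 0 (phase n) (fun _ => 2 * n) (fun _ => 1) (fun x' => ready_start x')
          (PInv.init n (rt n) hk h) (by omega)
        subst h0
        have h1 : (phase n + 1) * (2 * n) ≤ (phase n + 1) * (e + err) :=
          Nat.mul_le_mul_left _ he'
        have h2 : (phase n + 1) * (errors h S + err + e) =
          (phase n + 1) * (errors h S + 0) + (phase n + 1) * (e + err) := by ring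
        have h3 : 2 * n * (1 + learner.mistakesFrom start S) =
          2 * n + 2 * n * learner.mistakesFrom start S := by ring
        have h4 : (phase n + 1) * (2 * n) = 2 * n + 2 * n * phase n := by ring
        omega
      · rw [if_neg h0]
        have := ih (memOf (cnt - 1) b' w') (e + err) (M + 1) (cnt - 1) b' w'
          (fun x' => ready_memOf hn _ _ _ _) hI' (by omega)
        have h2 : (phase n + 1) * (errors h S + err + e) =
          (phase n + 1) * (errors h S + (e + err)) := by ring
        have h3 : 2 * n * (1 + learner.mistakesFrom (memOf (cnt - 1) b' w') S) =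
          2 * n + 2 * n * learner.mistakesFrom (memOf (cnt - 1) b' w') S := by ring
        have h4 : 2 * n * cnt = 2 * n + 2 * n * (cnt - 1) := by
          obtain ⟨c, rfl⟩ := Nat.exists_eq_succ_of_ne_zero h0
          simp only [Nat.succ_eq_add_one, Nat.add_sub_cancel]
          ring
        omega

theorem mistakes_le {n : ℕ} (hn : 1 ≤ n) (h : Finset (Fin n × Bool)) (S : Seq n) :
    learner.mistakes S ≤ (12 * rt n + 18) * errors h S + phase n := by
  have h1 := mistakes_bound hn h S start 0 0 (phase n) (fun _ => 2 * n) (fun _ => 1)
    (fun x' => ready_start x') (PInv.init n (rt n) (one_le_rt n hn) h) (by omega)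
  have h2 : (phase n + 1) * (errors h S + 0) ≤ 2 * n * ((12 * rt n + 18) * errors h S) := by
    have h3 : phase n + 1 ≤ 2 * n * (12 * rt n + 18) := by
      unfold phase
      have : 2 * n * (12 * rt n + 18) = 2 * n * (12 * rt n + 17) + 2 * n := by ring
      omega
    calc (phase n + 1) * (errors h S + 0) ≤ 2 * n * (12 * rt n + 18) * (errors h S + 0) :=
          Nat.mul_le_mul_right _ h3
      _ = 2 * n * ((12 * rt n + 18) * errors h S) := by ring
  have h5 : 2 * n * learner.mistakes S ≤
      2 * n * ((12 * rt n + 18) * errors h S + phase n) := by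
    have : 2 * n * ((12 * rt n + 18) * errors h S + phase n) =
      2 * n * phase n + 2 * n * ((12 * rt n + 18) * errors h S) := by ring
    rw [this]
    exact le_trans h1 (by omega)
  exact Nat.le_of_mul_le_mul_left h5 (by omega)

/-! ### the size of the memory -/

/-- bound on budgets, weights and countdown -/
def Small (n : ℕ) (s : Mem) : Prop :=
  s = start ∨ ∃ (cnt : ℕ) (b w : Fin n × Bool → ℕ), s = memOf cnt b w ∧ cnt ≤ phase n ∧
    (∀ l, b l ≤ 2 * n) ∧ ∀ l, w l ≤ 4 * rt n + 1

theorem Small.ready {n : ℕ} {s : Mem} (hs : Small n s) (x : Fin n → Bool) :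
    ∃ (cnt : ℕ) (b w : Fin n × Bool → ℕ), OnlineDisj.ready (s, List.ofFn x) = memOf cnt b w ∧
      cnt ≤ phase n ∧ (∀ l, b l ≤ 2 * n) ∧ ∀ l, w l ≤ 4 * rt n + 1 := by
  rcases hs with rfl | ⟨cnt, b, w, rfl, h1, h2, h3⟩
  · exact ⟨_, _, _, ready_start x, le_rfl, fun _ => le_rfl, fun _ => by omega⟩
  · rcases Nat.eq_zero_or_pos n with h0 | h0
    · subst h0
      refine ⟨phase 0, fun _ => 0, fun _ => 0, ?_, le_rfl, fun _ => le_rfl,
        fun _ => Nat.zero_le _⟩
      unfold OnlineDisj.ready
      rw [if_pos (by simp [memOf, cellsOf])]
      simp [initMem, memOf, cellsOf]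
    · exact ⟨cnt, b, w, ready_memOf h0 _ _ _ _, h1, h2, h3⟩

theorem Small.update {n : ℕ} {s : Mem} (hs : Small n s) (x : Fin n → Bool) (y : Bool) :
    Small n (OnlineDisj.update (s, List.ofFn x, y)) := by
  obtain ⟨cnt, b, w, hr, h1, h2, h3⟩ := hs.ready x
  rw [update_of_ready hr]
  split_ifs with hc h0 hy hA
  · exact Or.inr ⟨cnt, b, w, rfl, h1, h2, h3⟩
  · exact Or.inl rfl
  · refine Or.inr ⟨_, _, _, rfl, by omega, h2, fun l => ?_⟩
    have h4 := h3 l
    split_ifs with hsat
    · have h5 : w l ≤ tot x w := by
        unfold tot
        have := single_le_sum (f := fun l => if sat x l then w l else 0) (s := univ)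
          (fun _ _ => Nat.zero_le _) (mem_univ l)
        simpa [hsat] using this
      have h6 : tot x w < 2 * rt n := by
        by_contra h7
        apply hc
        rw [hy]
        simpa using h7
      omega
    · exact h4
  · refine Or.inr ⟨_, _, _, rfl, by omega, fun l => ?_, fun l => ?_⟩
    · have := h2 l
      split_ifs <;> omega
    · have := h3 l
      split_ifs <;> omega
  · refine Or.inr ⟨_, _, _, rfl, by omega, h2, fun l => ?_⟩
    have := h3 l
    split_ifs <;> omega

theorem Small.run {n : ℕ} (S : Seq n) : ∀ s : Mem, Small n s → Small n (learner.run s S) := by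
  induction S with
  | nil => intro s hs; exact hs
  | cons z S ih =>
    intro s hs
    exact ih _ (hs.update z.1 z.2)

theorem length_enc_le {α : Type} [N487b59b3 α] (l : List α) (B : ℕ)
    (h : ∀ a ∈ l, (enc a).length ≤ B) : (enc l).length ≤ l.length * (2 * B + 1) := by
  induction l with
  | nil => simp [enc_nil]
  | cons a l ih =>
    rw [length_enc_cons, List.length_cons, add_one_mul]
    have h1 := ih fun b hb => h b (by simp [hb])
    have h2 := h a (by simp)
    omega

theorem Small.size {n : ℕ} {s : Mem} (hs : Small n s) :
    (enc s).length ≤ 2 * n + 2 * (2 * n * (12 * n + 17)) + 3 + n * (2 * (24 * n + 10) + 1) := by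
  have hrt := rt_le n
  rcases hs with rfl | ⟨cnt, b, w, rfl, h1, h2, h3⟩
  · have : (enc start).length = 2 := by
      unfold start
      rw [length_enc_pair, length_enc_pair, length_enc_U, enc_nil]
      rfl
    omega
  · have h4 : (enc (cellsOf b w)).length ≤ n * (2 * (24 * n + 10) + 1) := by
      have := length_enc_le (cellsOf b w) (24 * n + 10) (by
        intro a ha
        unfold cellsOf at ha
        rw [List.mem_ofFn] at ha
        obtain ⟨i, rfl⟩ := ha
        rw [length_enc_pair, length_enc_pair, length_enc_pair, length_enc_U, length_enc_U,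
          length_enc_U, length_enc_U]
        have e1 := h2 (i, true)
        have e2 := h2 (i, false)
        have e3 := h3 (i, true)
        have e4 := h3 (i, false)
        dsimp only
        omega)
      unfold cellsOf at this ⊢
      rwa [List.length_ofFn] at this
    have h5 : phase n ≤ 2 * n * (12 * n + 17) := by
      unfold phase
      exact Nat.mul_le_mul_left _ (by omega)
    unfold memOf
    rw [length_enc_pair, length_enc_pair, length_enc_U, length_enc_U]
    dsimp only
    omega

theorem learner_polyTime : learner.PolyTime where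
  predict := PT_predict.isPolyTime
  update := PT_update.isPolyTime
  memory := by
    refine ⟨2 * Polynomial.X + 2 * (2 * Polynomial.X * (12 * Polynomial.X + 17)) + 3 +
      Polynomial.X * (2 * (24 * Polynomial.X + 10) + 1), fun n S => ?_⟩
    refine le_trans (Small.size (Small.run S start (Or.inl rfl))) ?_
    simp only [Polynomial.eval_add, Polynomial.eval_mul, Polynomial.eval_X, Polynomial.eval_ofNat,
      Polynomial.eval_one]
    exact le_rfl

end Pool.Agent.OnlineDisj
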